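import Mathlib

/-!
# MP_9d6809_an, question Q1 (negated form)

For every dimension `d ≥ 1`, every full rank lattice `Λ` and every level `k ≥ 2` there is a set `Ω`
of positive finite measure multi-tiling by `Λ` at level `k` such that for no set `Γ` of frequencies
the Gabor system of the indicator of `Ω` along `Λ × Γ` is a Riesz basis.

The set is `Ω = M([0, k) x [0, 1)^(d-1))`: with `e` the first column of `M`, and `F` the fundamental
cell, `χ_Ω(x) - χ_Ω(x - e) = χ_F(x) - χ_F(x - k e)`, which telescopes along the multiples of `k e`.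
-/

namespace Pool.Agent.Results.MP_9d6809_an.NoRieszBasis

open MeasureTheory Complex
open scoped ENNReal

/-- The space `R^d`. -/
abbrev Sp (d : ℕ) : Type := EuclideanSpace ℝ (Fin d)

/-- The Hilbert space of square integrable complex functions on `R^d`. -/
abbrev L2 (d : ℕ) : Type := Lp ℂ 2 (volume : Measure (Sp d))

/-- The set `M(Z^d)`. -/
def latticeOf {d : ℕ} (M : Matrix (Fin d) (Fin d) ℝ) : Set (Sp d) :=
  {v | ∃ m : Fin d → ℤ, v = WithLp.toLp 2 (M.mulVec fun i => (m i : ℝ))}

/-- `Ω` multi-tiles by `Λ` at level `k`: for almost every `x` there are exactly `k` elements `l` of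
`Λ` with `x - l ∈ Ω`. -/
def MultiTiles {d : ℕ} (Ω Λ : Set (Sp d)) (k : ℕ) : Prop :=
  ∀ᵐ x ∂(volume : Measure (Sp d)), {l | l ∈ Λ ∧ x - l ∈ Ω}.encard = k

/-- The time-frequency shift `x ↦ exp(2 pi i γ . x) g(x - l)`. -/
noncomputable def atom {d : ℕ} (g : Sp d → ℂ) (l γ : Sp d) (x : Sp d) : ℂ :=
  exp (2 * Real.pi * I * (inner ℝ γ x : ℝ)) * g (x - l)

/-- A family in a Hilbert space is a Riesz basis: it is the image of an orthonormal (Hilbert) basis
under a bounded invertible linear operator. -/
def IsRieszBasis {ι H : Type} [NormedAddCommGroup H] [InnerProductSpace ℂ H] (v : ι → H) : Prop :=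
  ∃ (e : HilbertBasis ι ℂ H) (U : H ≃L[ℂ] H), ∀ i, v i = U (e i)

/-- The Gabor system of `g` along `Λ × Γ` is a Riesz basis of the space of square integrable
functions. -/
def GaborRieszBasis {d : ℕ} (g : Sp d → ℂ) (Λ Γ : Set (Sp d)) : Prop :=
  ∃ v : Λ × Γ → L2 d, (∀ p : Λ × Γ, v p =ᵐ[volume] atom g (p.1 : Sp d) (p.2 : Sp d)) ∧
    IsRieszBasis v

/-! ### The construction -/

section construction

variable {d : ℕ} (M : Matrix (Fin d) (Fin d) ℝ) (i0 : Fin d)

/-- Coordinates with respect to `M`. -/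
noncomputable def coo (x : Sp d) (i : Fin d) : ℝ := (M⁻¹).mulVec x.ofLp i

/-- The box `M([0, r) x [0, 1)^(d-1))`. -/
def box (r : ℝ) : Set (Sp d) :=
  {x | ∀ i, 0 ≤ coo M x i ∧ coo M x i < if i = i0 then r else 1}

/-- The distinguished lattice vector. -/
noncomputable def ev (t : ℝ) : Sp d := WithLp.toLp 2 (M.mulVec (Pi.single i0 t))

theorem coo_sub (x y : Sp d) (i : Fin d) : coo M (x - y) i = coo M x i - coo M y i := by
  rw [coo, coo, coo, WithLp.ofLp_sub, Matrix.mulVec_sub, Pi.sub_apply]

theorem coo_mul (hM : M.det ≠ 0) (v : Fin d → ℝ) (i : Fin d) :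
    coo M (WithLp.toLp 2 (M.mulVec v)) i = v i := by
  rw [coo, Matrix.mulVec_mulVec, Matrix.nonsing_inv_mul M (isUnit_iff_ne_zero.mpr hM),
    Matrix.one_mulVec]

theorem coo_ev (hM : M.det ≠ 0) (t : ℝ) (i : Fin d) :
    coo M (ev M i0 t) i = if i = i0 then t else 0 := by
  rw [ev, coo_mul M hM, Pi.single_apply]

theorem continuous_coo (i : Fin d) : Continuous fun x : Sp d => coo M x i := by
  unfold coo Matrix.mulVec dotProduct
  fun_prop

theorem measurableSet_box (r : ℝ) : MeasurableSet (box M i0 r) := by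
  rw [box, Set.ofPred_forall]
  refine MeasurableSet.iInter fun i => ?_
  have := (continuous_coo M i).measurable
  exact (measurableSet_le measurable_const this).inter (measurableSet_lt this measurable_const)

theorem volume_box_lt (hM : M.det ≠ 0) (r : ℝ) : volume (box M i0 r) < ∞ := by
  have hcomp : IsCompact ((fun v : Fin d → ℝ => (WithLp.toLp 2 (M.mulVec v) : Sp d)) ''
      (Set.Icc (fun _ => 0) (fun _ => max r 1))) := by
    apply isCompact_Icc.image
    unfold Matrix.mulVec dotProduct
    fun_prop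
  refine (measure_mono ?_).trans_lt hcomp.measure_lt_top
  intro x hx
  refine ⟨fun i => coo M x i, ⟨fun i => (hx i).1, fun i => ?_⟩, ?_⟩
  · refine (hx i).2.le.trans ?_
    split_ifs
    · exact le_max_left _ _
    · exact le_max_right _ _
  · change WithLp.toLp 2 (M.mulVec ((M⁻¹).mulVec x.ofLp)) = x
    rw [Matrix.mulVec_mulVec, Matrix.mul_nonsing_inv M (isUnit_iff_ne_zero.mpr hM),
      Matrix.one_mulVec]

theorem volume_box_pos (hM : M.det ≠ 0) (r : ℝ) (hr : 1 ≤ r) : volume (box M i0 r) ≠ 0 := by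
  have hopen : IsOpen {x : Sp d | ∀ i, 0 < coo M x i ∧ coo M x i < 1} := by
    rw [Set.ofPred_forall]
    refine isOpen_iInter_of_finite fun i => ?_
    exact (isOpen_lt continuous_const (continuous_coo M i)).inter
      (isOpen_lt (continuous_coo M i) continuous_const)
  have hne : {x : Sp d | ∀ i, 0 < coo M x i ∧ coo M x i < 1}.Nonempty := by
    refine ⟨WithLp.toLp 2 (M.mulVec fun _ => 1 / 2), fun i => ?_⟩
    rw [coo_mul M hM]
    norm_num
  have hpos := hopen.measure_pos volume hne
  refine (hpos.trans_le (measure_mono ?_)).ne'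
  intro x hx i
  refine ⟨(hx i).1.le, ?_⟩
  split_ifs
  · exact (hx i).2.trans_le hr
  · exact (hx i).2

/-- The telescoping identity for the indicators. -/
theorem indicator_identity (hM : M.det ≠ 0) (k : ℝ) (hk : 1 ≤ k) (x : Sp d) :
    (box M i0 k).indicator (1 : Sp d → ℂ) x - (box M i0 k).indicator (1 : Sp d → ℂ) (x - ev M i0 1) =
    (box M i0 1).indicator (1 : Sp d → ℂ) x -
      (box M i0 1).indicator (1 : Sp d → ℂ) (x - ev M i0 k) := by
  classical
  have hmem : ∀ r s : ℝ, x - ev M i0 s ∈ box M i0 r ↔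
      ((∀ i, i ≠ i0 → 0 ≤ coo M x i ∧ coo M x i < 1) ∧ (s ≤ coo M x i0 ∧ coo M x i0 < r + s)) := by
    intro r s
    rw [box, Set.mem_ofPred_eq]
    constructor
    · intro h
      refine ⟨fun i hi => ?_, ?_⟩
      · have := h i
        rw [coo_sub, coo_ev M i0 hM, if_neg hi, if_neg hi, sub_zero] at this
        exact this
      · have := h i0
        rw [coo_sub, coo_ev M i0 hM, if_pos rfl, if_pos rfl] at this
        constructor <;> linarith [this.1, this.2]
    · rintro ⟨h1, h2, h3⟩ i
      rw [coo_sub, coo_ev M i0 hM]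
      by_cases hi : i = i0
      · subst hi
        rw [if_pos rfl, if_pos rfl]
        constructor <;> linarith
      · rw [if_neg hi, if_neg hi, sub_zero]
        exact h1 i hi
  have hmem0 : ∀ r : ℝ, x ∈ box M i0 r ↔
      ((∀ i, i ≠ i0 → 0 ≤ coo M x i ∧ coo M x i < 1) ∧ (0 ≤ coo M x i0 ∧ coo M x i0 < r)) := by
    intro r
    have := hmem r 0
    have h0 : ev M i0 0 = 0 := by
      rw [ev, Pi.single_zero, Matrix.mulVec_zero, WithLp.toLp_zero]
    rw [h0, sub_zero, add_zero] at this
    exact this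
  simp only [Set.indicator_apply, Pi.one_apply]
  rw [if_congr (hmem0 k) rfl rfl, if_congr (hmem k 1) rfl rfl, if_congr (hmem0 1) rfl rfl,
    if_congr (hmem 1 k) rfl rfl]
  by_cases hQ : ∀ i, i ≠ i0 → 0 ≤ coo M x i ∧ coo M x i < 1
  swap
  · rw [if_neg (fun h => hQ h.1), if_neg (fun h => hQ h.1), if_neg (fun h => hQ h.1),
      if_neg (fun h => hQ h.1)]
  · set t := coo M x i0 with ht
    by_cases h0 : 0 ≤ t
    swap
    · push Not at h0
      rw [if_neg (fun h => by linarith [h.2.1]), if_neg (fun h => by linarith [h.2.1]),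
        if_neg (fun h => by linarith [h.2.1]), if_neg (fun h => by linarith [h.2.1])]
    · by_cases h1 : t < 1
      · rw [if_pos ⟨hQ, h0, by linarith⟩, if_neg (fun h => by linarith [h.2.1]),
          if_pos ⟨hQ, h0, h1⟩, if_neg (fun h => by linarith [h.2.1])]
      · push Not at h1
        by_cases h2 : t < k
        · rw [if_pos ⟨hQ, h0, h2⟩, if_pos ⟨hQ, h1, by linarith⟩,
            if_neg (fun h => by linarith [h.2.2]), if_neg (fun h => by linarith [h.2.1])]
          ring
        · push Not at h2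
          by_cases h3 : t < k + 1
          · rw [if_neg (fun h => by linarith [h.2.2]), if_pos ⟨hQ, h1, h3⟩,
              if_neg (fun h => by linarith [h.2.2]), if_pos ⟨hQ, h2, by linarith⟩]
          · push Not at h3
            rw [if_neg (fun h => by linarith [h.2.2]), if_neg (fun h => by linarith [h.2.2]),
              if_neg (fun h => by linarith [h.2.2]), if_neg (fun h => by linarith [h.2.2])]

theorem multiTiles_box (hM : M.det ≠ 0) (k : ℕ) : MultiTiles (box M i0 k) (latticeOf M) k := by
  refine Filter.Eventually.of_forall fun x => ?_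
  -- the elements are indexed by `Fin k`
  let φ : Fin k → Sp d := fun j =>
    WithLp.toLp 2 (M.mulVec fun i => ((⌊coo M x i⌋ - if i = i0 then (j : ℤ) else 0 : ℤ) : ℝ))
  have hφ : Function.Injective φ := by
    intro a b hab
    have h1 := congrArg (fun v => coo M v i0) hab
    simp only [φ] at h1
    rw [coo_mul M hM, coo_mul M hM, if_pos rfl, if_pos rfl] at h1
    have h2 : (⌊coo M x i0⌋ - (a : ℤ) : ℤ) = ⌊coo M x i0⌋ - (b : ℤ) := by exact_mod_cast h1
    apply Fin.ext
    omega
  have hset : {l | l ∈ latticeOf M ∧ x - l ∈ box M i0 k} = Set.range φ := by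
    ext l
    rw [Set.mem_ofPred_eq, Set.mem_range]
    constructor
    · rintro ⟨⟨m, rfl⟩, h⟩
      have h1 : ∀ i, i ≠ i0 → m i = ⌊coo M x i⌋ := by
        intro i hi
        have := h i
        rw [coo_sub, coo_mul M hM, if_neg hi] at this
        symm
        rw [Int.floor_eq_iff]
        constructor <;> linarith [this.1, this.2]
      have h2 := h i0
      rw [coo_sub, coo_mul M hM, if_pos rfl] at h2
      have h3 : m i0 ≤ ⌊coo M x i0⌋ := by
        rw [Int.le_floor]
        linarith [h2.1]
      have h4 : ⌊coo M x i0⌋ < m i0 + k := by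
        rw [Int.floor_lt]
        push_cast
        linarith [h2.2]
      refine ⟨⟨(⌊coo M x i0⌋ - m i0).toNat, by omega⟩, ?_⟩
      simp only [φ]
      congr 2
      funext i
      by_cases hi : i = i0
      · subst hi
        rw [if_pos rfl]
        congr 1
        omega
      · rw [if_neg hi, sub_zero, h1 i hi]
    · rintro ⟨j, rfl⟩
      refine ⟨⟨_, rfl⟩, fun i => ?_⟩
      simp only [φ]
      rw [coo_sub, coo_mul M hM]
      have h5 := Int.floor_le (coo M x i)
      have h6 := Int.lt_floor_add_one (coo M x i)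
      by_cases hi : i = i0
      · subst hi
        rw [if_pos rfl, if_pos rfl]
        have h7 : ((j : ℕ) : ℝ) + 1 ≤ k := by exact_mod_cast j.2
        have h8 : (0 : ℝ) ≤ ((j : ℕ) : ℝ) := Nat.cast_nonneg _
        push_cast
        constructor <;> linarith
      · rw [if_neg hi, if_neg hi]
        push_cast
        constructor <;> linarith
  rw [hset, ← Set.image_univ, hφ.encard_image, Set.encard_univ, ENat.card_eq_coe_fintype_card,
    Fintype.card_fin]

end construction

section analytic

variable {d : ℕ}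

theorem memLp_atom (S : Set (Sp d)) (hS : MeasurableSet S) (hfin : volume S < ∞) (l γ : Sp d) :
    MemLp (atom (S.indicator 1) l γ) 2 (volume : Measure (Sp d)) := by
  have hpre : volume ((fun x => x - l) ⁻¹' S) = volume S :=
    (measurePreserving_sub_right (volume : Measure (Sp d)) l).measure_preimage
      hS.nullMeasurableSet
  have h1 : MemLp (((fun x => x - l) ⁻¹' S).indicator fun _ => (1 : ℂ)) 2
      (volume : Measure (Sp d)) :=
    memLp_indicator_const 2 (hS.preimage (by fun_prop)) 1 (Or.inr (by rw [hpre]; exact hfin.ne))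
  refine h1.of_le ?_ (Filter.Eventually.of_forall fun x => ?_)
  · unfold atom
    apply AEStronglyMeasurable.mul
    · apply Continuous.aestronglyMeasurable
      fun_prop
    · have : Measurable fun x : Sp d => S.indicator (1 : Sp d → ℂ) (x - l) :=
        (measurable_one.indicator hS).comp (measurable_id.sub_const l)
      exact this.aestronglyMeasurable
  · rw [atom, norm_mul]
    have h2 : ‖exp (2 * Real.pi * I * (inner ℝ γ x : ℝ))‖ = 1 := by
      have : (2 * Real.pi * I * (inner ℝ γ x : ℝ) : ℂ) =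
          ((2 * Real.pi * (inner ℝ γ x : ℝ) : ℝ) : ℂ) * I := by
        push_cast
        ring
      rw [this, norm_exp_ofReal_mul_I]
    rw [h2, one_mul]
    exact le_of_eq rfl

theorem norm_toLp_atom (S : Set (Sp d)) (hS : MeasurableSet S) (hfin : volume S < ∞)
    (l γ : Sp d) : ‖(memLp_atom S hS hfin l γ).toLp _‖ = (volume S ^ (1 / (2 : ℝ))).toReal := by
  have hpre : volume ((fun x => x - l) ⁻¹' S) = volume S :=
    (measurePreserving_sub_right (volume : Measure (Sp d)) l).measure_preimage
      hS.nullMeasurableSet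
  rw [Lp.norm_toLp]
  congr 1
  have h1 : eLpNorm (atom (S.indicator 1) l γ) 2 (volume : Measure (Sp d)) =
      eLpNorm (((fun x => x - l) ⁻¹' S).indicator fun _ => (1 : ℂ)) 2 volume := by
    apply eLpNorm_congr_norm_ae
    refine Filter.Eventually.of_forall fun x => ?_
    rw [atom, norm_mul]
    have h2 : ‖exp (2 * Real.pi * I * (inner ℝ γ x : ℝ))‖ = 1 := by
      have : (2 * Real.pi * I * (inner ℝ γ x : ℝ) : ℂ) =
          ((2 * Real.pi * (inner ℝ γ x : ℝ) : ℝ) : ℂ) * I := by
        push_cast
        ring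
      rw [this, norm_exp_ofReal_mul_I]
    rw [h2, one_mul]
    rfl
  rw [h1, eLpNorm_indicator_const (hS.preimage (by fun_prop)) (by norm_num) (by norm_num), hpre]
  simp

theorem ev_add (M : Matrix (Fin d) (Fin d) ℝ) (i0 : Fin d) (s t : ℝ) :
    ev M i0 (s + t) = ev M i0 s + ev M i0 t := by
  rw [ev, ev, ev, Pi.single_add, Matrix.mulVec_add, WithLp.toLp_add]

theorem ev_mem (M : Matrix (Fin d) (Fin d) ℝ) (i0 : Fin d) (n : ℕ) :
    ev M i0 n ∈ latticeOf M := by
  refine ⟨Pi.single i0 (n : ℤ), ?_⟩
  rw [ev]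
  congr 2
  funext i
  by_cases h : i = i0
  · subst h
    simp
  · simp [h]

theorem no_riesz (M : Matrix (Fin d) (Fin d) ℝ) (hM : M.det ≠ 0) (i0 : Fin d) (k : ℕ)
    (hk : 2 ≤ k) (Γ : Set (Sp d)) :
    ¬ GaborRieszBasis ((box M i0 k).indicator 1) (latticeOf M) Γ := by
  rintro ⟨v, hv, e, U, hU⟩
  have hk1 : (1 : ℝ) ≤ k := by exact_mod_cast (by omega : 1 ≤ k)
  have hFm := measurableSet_box M i0 1
  have hFf := volume_box_lt M i0 hM 1
  set C : ℝ := (volume (box M i0 1) ^ (1 / (2 : ℝ))).toReal with hC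
  have hCpos : 0 < C := by
    rw [hC]
    apply ENNReal.toReal_pos
    · have := volume_box_pos M i0 hM 1 le_rfl
      simp [this]
    · exact (ENNReal.rpow_lt_top_of_nonneg (by norm_num) hFf.ne).ne
  rcases Γ.eq_empty_or_nonempty with hΓ | ⟨γ0, hγ0⟩
  · subst hΓ
    have h0 := norm_toLp_atom (box M i0 1) hFm hFf 0 0
    have h1 : (memLp_atom (box M i0 1) hFm hFf 0 0).toLp _ = 0 := by
      apply e.repr.injective
      rw [map_zero]
      ext i
      exact (i.2.2 : False).elim
    rw [h1, norm_zero] at h0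
    exact hCpos.ne h0
  -- the chain of indices
  let idx : ℕ → latticeOf M × Γ := fun n => (⟨ev M i0 n, ev_mem M i0 n⟩, ⟨γ0, hγ0⟩)
  have hidx : Function.Injective idx := by
    intro a b hab
    have h1 : ev M i0 (a : ℝ) = ev M i0 (b : ℝ) := congrArg (fun q => (q.1 : Sp d)) hab
    have h2 := congrArg (fun x => coo M x i0) h1
    simp only [coo_ev M i0 hM, if_true] at h2
    exact_mod_cast h2
  let w : ℕ → L2 d := fun n => (memLp_atom (box M i0 1) hFm hFf (ev M i0 n) γ0).toLp _
  have hw : ∀ n, ‖w n‖ = C := fun n => norm_toLp_atom _ hFm hFf _ _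
  have key : ∀ n, v (idx n) - v (idx (n + 1)) = w n - w (n + k) := by
    intro n
    apply Lp.ext
    filter_upwards [Lp.coeFn_sub (v (idx n)) (v (idx (n + 1))), Lp.coeFn_sub (w n) (w (n + k)),
      hv (idx n), hv (idx (n + 1)),
      (memLp_atom (box M i0 1) hFm hFf (ev M i0 n) γ0).coeFn_toLp,
      (memLp_atom (box M i0 1) hFm hFf (ev M i0 ((n + k : ℕ) : ℝ)) γ0).coeFn_toLp]
      with x h1 h2 h3 h4 h5 h6
    rw [h1, h2, Pi.sub_apply, Pi.sub_apply, h3, h4, h5, h6]
    change atom _ (ev M i0 (n : ℝ)) γ0 x - atom _ (ev M i0 ((n + 1 : ℕ) : ℝ)) γ0 x = _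
    unfold atom
    rw [← mul_sub, ← mul_sub]
    congr 1
    have h7 := indicator_identity M i0 hM k hk1 (x - ev M i0 n)
    have h8 : x - ev M i0 ((n + 1 : ℕ) : ℝ) = x - ev M i0 n - ev M i0 1 := by
      rw [Nat.cast_add, Nat.cast_one, ev_add, sub_sub]
    have h9 : x - ev M i0 ((n + k : ℕ) : ℝ) = x - ev M i0 n - ev M i0 k := by
      rw [Nat.cast_add, ev_add, sub_sub]
    rw [h8, h9]
    exact h7
  -- the test vectors
  let s : ℕ → L2 d := fun N => ∑ q ∈ Finset.range N, (e (idx (q * k)) - e (idx (q * k + 1)))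
  have hUs : ∀ N, U (s N) = w 0 - w (N * k) := by
    intro N
    have h1 : U (s N) = ∑ q ∈ Finset.range N, (w (q * k) - w ((q + 1) * k)) := by
      change U (∑ q ∈ Finset.range N, (e (idx (q * k)) - e (idx (q * k + 1)))) = _
      rw [map_sum]
      refine Finset.sum_congr rfl fun q _ => ?_
      rw [map_sub, ← hU, ← hU, key, add_mul, one_mul]
    rw [h1, Finset.sum_range_sub' (fun q => w (q * k)), Nat.zero_mul]
  have hs1 : ∀ N, ‖s N‖ ≤ ‖(U.symm : L2 d →L[ℂ] L2 d)‖ * (2 * C) := by
    intro N
    have h1 : s N = U.symm (w 0 - w (N * k)) := by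
      rw [← hUs, U.symm_apply_apply]
    rw [h1]
    refine ((U.symm : L2 d →L[ℂ] L2 d).le_opNorm _).trans ?_
    apply mul_le_mul_of_nonneg_left _ (norm_nonneg _)
    refine (norm_sub_le _ _).trans ?_
    rw [hw, hw]
    linarith
  have hs2 : ∀ N : ℕ, (N : ℝ) ≤ ‖s N‖ ^ 2 := by
    intro N
    have hon : Orthonormal ℂ fun q : ℕ => e (idx (q * k)) := by
      refine e.orthonormal.comp (fun q : ℕ => idx (q * k)) ?_
      intro a b hab
      exact Nat.eq_of_mul_eq_mul_right (by omega) (hidx hab)
    have h1 := hon.sum_inner_products_le (x := s N) (s := Finset.range N)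
    refine le_trans ?_ h1
    have h2 : ∀ q ∈ Finset.range N, ‖(inner ℂ (e (idx (q * k))) (s N) : ℂ)‖ ^ 2 = 1 := by
      intro q hq
      have h3 : (inner ℂ (e (idx (q * k))) (s N) : ℂ) = 1 := by
        change inner ℂ (e (idx (q * k)))
          (∑ q ∈ Finset.range N, (e (idx (q * k)) - e (idx (q * k + 1)))) = (1 : ℂ)
        rw [inner_sum, Finset.sum_eq_single q]
        · have h10 : (inner ℂ (e (idx (q * k))) (e (idx (q * k))) : ℂ) = 1 := by
            rw [inner_self_eq_norm_sq_to_K, e.orthonormal.1]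
            simp
          rw [inner_sub_right, h10, e.orthonormal.inner_eq_zero, sub_zero]
          intro h
          have := hidx h
          omega
        · intro q' _ hqq
          rw [inner_sub_right, e.orthonormal.inner_eq_zero, e.orthonormal.inner_eq_zero, sub_zero]
          · intro h
            have h4 := hidx h
            have h5 := congrArg (fun z => z % k) h4
            simp only [Nat.mul_mod_left, Nat.mul_add_mod_self_right] at h5
            rw [Nat.mod_eq_of_lt (by omega : 1 < k)] at h5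
            omega
          · intro h
            exact hqq (Nat.eq_of_mul_eq_mul_right (by omega) (hidx h)).symm
        · intro h
          exact absurd hq h
      rw [h3, norm_one, one_pow]
    rw [Finset.sum_congr rfl h2]
    simp
  obtain ⟨N, hN⟩ := exists_nat_gt ((‖(U.symm : L2 d →L[ℂ] L2 d)‖ * (2 * C)) ^ 2)
  have h1 := hs2 N
  have h2 := pow_le_pow_left₀ (norm_nonneg _) (hs1 N) 2
  linarith

end analytic

/-- **Negative answer to Q1**: for every dimension `d ≥ 1`, every full rank lattice `M(Z^d)` and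
every level `k ≥ 2` there is a measurable set `Ω` of positive finite measure which multi-tiles by
the lattice at level `k`, such that for no set `Γ` of frequencies the Gabor system of the indicator
of `Ω` is a Riesz basis. -/
theorem result (d : ℕ) (hd : 1 ≤ d) (M : Matrix (Fin d) (Fin d) ℝ) (hM : M.det ≠ 0) (k : ℕ)
    (hk : 2 ≤ k) :
    ∃ Ω : Set (Sp d), MeasurableSet Ω ∧ volume Ω ≠ 0 ∧ volume Ω ≠ ∞ ∧
      MultiTiles Ω (latticeOf M) k ∧
      ∀ Γ : Set (Sp d), ¬ GaborRieszBasis (Ω.indicator 1) (latticeOf M) Γ := by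
  let i0 : Fin d := ⟨0, hd⟩
  refine ⟨box M i0 k, measurableSet_box M i0 k, ?_, (volume_box_lt M i0 hM k).ne,
    multiTiles_box M i0 hM k, fun Γ => no_riesz M hM i0 k hk Γ⟩
  exact volume_box_pos M i0 hM k (by exact_mod_cast (by omega : 1 ≤ k))

end Pool.Agent.Results.MP_9d6809_an.NoRieszBasis
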